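import Pool.Agent.Helper935_AdS.Fin

namespace Pool.Agent.Results.MP_837159_gt.ConstCurvPairs
open Helper935.AdS

/-- Existence and uniqueness for the pairs `(a^2 h, b^2 h)`, `a, b ∈ (0,1)`, `h` hyperbolic. -/
theorem result {Γ : Type*} [Group Γ] (A : Γ →* (V3 ≃ₗ[ℝ] V3)) (hA : IsCocompact A) {a b : ℝ}
    (ha : 0 < a) (ha1 : a < 1) (hb : 0 < b) (hb1 : b < 1) :
    Nonempty (KSlab A a b) ∧ (∀ S : KSlab A a b, ∃ L E, StdIn S L E) ∧
    (∀ S S' : KSlab A a b, ∃ Φ, Carries S S' Φ) := by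
  have key : ∀ S : KSlab A a b, ∃ (L : V3 →ₗ[ℝ] V4) (E : V4),
      (∀ x y, q (L x) (L y) = eta x y) ∧ (∀ x, q (L x) E = 0) ∧ q E E = -1 ∧
      (∀ x ∈ H2, S.Xm x = a • L x - Real.sqrt (1 - a ^ 2) • E) ∧
      (∀ x ∈ H2, S.Xp x = b • L x + Real.sqrt (1 - b ^ 2) • E) ∧
      (∀ g, S.ρ g E = E ∧ ∀ x, S.ρ g (L x) = L (A g x)) := by
    intro S
    obtain ⟨L, E, h1, h2, h3, h4, h5, h6⟩ := rigidity (toSetup A hA ha ha1 hb hb1 S.toSlab)
    exact ⟨L, E, h1, h2, h3, h4, h5, fun g => h6 (A g, S.ρ g) ⟨g, rfl⟩⟩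
  refine ⟨(slab_exists A hA ha ha1 hb hb1).map Slab.toKSlab, ?_, ?_⟩
  · intro S
    obtain ⟨L, E, h1, h2, h3, h4, h5, h6⟩ := key S
    exact ⟨L, E, ⟨h1, h2, h3⟩, h4, h5, fun g => (h6 g).1, fun g x => (h6 g).2 x⟩
  intro S S'
  obtain ⟨L, E, h1, h2, h3, h4, h5, h6⟩ := key S
  obtain ⟨L', E', h1', h2', h3', h4', h5', h6'⟩ := key S'
  obtain ⟨J, hJ⟩ := frame_equiv L E h1 h2 h3
  obtain ⟨J', hJ'⟩ := frame_equiv L' E' h1' h2' h3'
  have hL : ∀ x, J.symm (L x) = (x, 0) := by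
    intro x; rw [LinearEquiv.symm_apply_eq, hJ]; simp
  have hE : J.symm E = (0, 1) := by
    rw [LinearEquiv.symm_apply_eq, hJ]; simp
  have hΦL : ∀ x, (J.symm.trans J') (L x) = L' x := by
    intro x; rw [LinearEquiv.trans_apply, hL, hJ']; simp
  have hΦE : (J.symm.trans J') E = E' := by
    rw [LinearEquiv.trans_apply, hE, hJ']; simp
  have hform : ∀ x t y s, q (L x + t • E) (L y + s • E) = eta x y - t * s := by
    intro x t y s
    rw [q_add_left', q_add_right', q_add_right', q_smul_left', q_smul_left', q_smul_right',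
      q_smul_right', h1, h2, h3, q_comm' E (L y), h2]
    ring
  have hform' : ∀ x t y s, q (L' x + t • E') (L' y + s • E') = eta x y - t * s := by
    intro x t y s
    rw [q_add_left', q_add_right', q_add_right', q_smul_left', q_smul_left', q_smul_right',
      q_smul_right', h1', h2', h3', q_comm' E' (L' y), h2']
    ring
  refine ⟨J.symm.trans J', ?_, ?_, ?_, ?_⟩
  · intro X Y
    obtain ⟨⟨x, t⟩, rfl⟩ := J.surjective X
    obtain ⟨⟨y, s⟩, rfl⟩ := J.surjective Y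
    rw [LinearEquiv.trans_apply, LinearEquiv.trans_apply, LinearEquiv.symm_apply_apply,
      LinearEquiv.symm_apply_apply, hJ', hJ', hJ, hJ, hform, hform']
  · intro x hx
    rw [h4 x hx, h4' x hx, map_sub, map_smul, map_smul, hΦL, hΦE]
  · intro x hx
    rw [h5 x hx, h5' x hx, map_add, map_smul, map_smul, hΦL, hΦE]
  · intro g Y
    obtain ⟨⟨y, s⟩, rfl⟩ := J.surjective Y
    rw [LinearEquiv.trans_apply, LinearEquiv.symm_apply_apply, hJ', hJ, map_add, map_smul,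
      map_add, map_smul, map_add, map_smul, (h6 g).1, (h6 g).2, (h6' g).1, (h6' g).2, hΦL, hΦE]

end Pool.Agent.Results.MP_837159_gt.ConstCurvPairs
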