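import Pool.Agent.Helper935_AdS.HalfG

namespace Pool.Agent.Results.MP_837159_gt.PleatedPast
open Helper935.AdS

/-- Let `S₀` be a Fuchsian slab with totally geodesic past boundary and strictly convex `C^3` future
boundary. Any slab `S` with pleated past boundary of the same (hyperbolic) metric and convex `C^3`
future boundary of the same metric is congruent to `S₀`. -/
theorem result {Γ : Type*} [Group Γ] {A : Γ →* (V3 ≃ₗ[ℝ] V3)} (hA : IsCocompact A)
    (S₀ S : MixedSlab A) (h₀ : HalfFuchsian S₀) (hp : SameMetric S.Xp S₀.Xp) :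
    ∃ Φ, MCongruent S₀ S Φ :=
  half_unique hA S₀ S h₀ hp

end Pool.Agent.Results.MP_837159_gt.PleatedPast
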